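import Pool.Agent.Helper63.TH.Goals

/-!
# MP_705522_gt, thresholds, packet K2B
-/

namespace Pool.Agent.Helper50.TH

open Pool.Agent.Helper53.PT
open Pool.Agent.Helper63.TH

lemma num_le {w : ℝ} (hw : 0 < w) : w * Real.cos w - Real.sin w ≤ 0.03 * w ^ 3 := by
  have hpi1 : (3.14159 : ℝ) < Real.pi := by
    have := Real.pi_gt_d6
    linarith
  have hpi2 : Real.pi < 3.1416 := by
    have := Real.pi_lt_d6
    linarith
  rcases lt_or_ge w 6 with h6 | h6
  · rcases le_or_gt w Real.pi with h1 | h1
    · -- nonpositive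
      have h0 : w * Real.cos w - Real.sin w ≤ 0 := by
        rcases lt_or_ge w (Real.pi / 2) with h2 | h2
        · have hc : 0 < Real.cos w := Real.cos_pos_of_mem_Ioo ⟨by linarith, h2⟩
          have ht := Real.lt_tan hw h2
          rw [Real.tan_eq_sin_div_cos, lt_div_iff₀ hc] at ht
          linarith
        · have hc : Real.cos w ≤ 0 :=
            Real.cos_nonpos_of_pi_div_two_le_of_le h2 (by linarith)
          have hs : 0 ≤ Real.sin w := Real.sin_nonneg_of_nonneg_of_le_pi hw.le h1
          have := mul_nonneg hw.le (neg_nonneg.2 hc)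
          linarith
      have : 0 ≤ 0.03 * w ^ 3 := by positivity
      linarith
    · rcases le_or_gt w (3 * Real.pi / 2) with h2 | h2
      · have hc : Real.cos w ≤ 0 :=
          Real.cos_nonpos_of_pi_div_two_le_of_le (by linarith) (by linarith)
        have h3 : w * Real.cos w ≤ 0 := mul_nonpos_of_nonneg_of_nonpos hw.le hc
        have hw3 : (3.14159 : ℝ) < w := by linarith
        rcases le_or_gt w (Real.pi + 0.9) with h4 | h4
        · have h5 : -Real.sin w ≤ w - Real.pi := by
            have e : -Real.sin w = Real.sin (w - Real.pi) := by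
              rw [Real.sin_sub_pi]
            rw [e]
            exact Real.sin_le (by linarith)
          have h7 : (3.14159 : ℝ) ^ 3 ≤ w ^ 3 := pow_le_pow_left₀ (by norm_num) hw3.le 3
          norm_num at h7
          linarith
        · have h5 : -Real.sin w ≤ 1 := by
            have := Real.neg_one_le_sin w
            linarith
          have h7 : (4 : ℝ) ^ 3 ≤ w ^ 3 := pow_le_pow_left₀ (by norm_num) (by linarith) 3
          norm_num at h7
          linarith
      · -- w = 2 pi - s
        obtain ⟨s, hs⟩ : ∃ s, s = 2 * Real.pi - w := ⟨_, rfl⟩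
        have hw' : w = 2 * Real.pi - s := by linarith
        have hs0 : 0 < s := by linarith
        have hs1 : s ≤ 1.5708 := by linarith
        have ec : Real.cos w = Real.cos s := by
          rw [hw', Real.cos_two_pi_sub]
        have es : Real.sin w = -Real.sin s := by
          rw [hw', Real.sin_two_pi_sub]
        have hcos := Pool.Agent.Helper90.PT.cos_le4' s
        have hk : |k2 s| ≤ 1 / 6 := (Pool.Agent.Helper32.PT.gKER.2.2.2.1 s).1
        have hcl := Pool.Agent.Helper32.PT.gKER.2.2.2.2.1 s hs0.ne'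
        have hk2 : Real.sin s - s * Real.cos s ≤ s ^ 3 / 3 := by
          rw [hcl, abs_div] at hk
          have hpos : (0 : ℝ) < |2 * s ^ 3| := by positivity
          rw [div_le_iff₀ hpos, abs_of_pos (by positivity : (0 : ℝ) < 2 * s ^ 3)] at hk
          have := neg_abs_le (s * Real.cos s - Real.sin s)
          linarith
        have hbr : 0 ≤ 1 - s ^ 2 / 2 + s ^ 4 / 24 := by
          nlinarith [sq_nonneg (s ^ 2 - 6), mul_nonneg hs0.le (sub_nonneg.2 hs1)]
        have h3 : w * Real.cos w - Real.sin w ≤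
            2 * Real.pi * (1 - s ^ 2 / 2 + s ^ 4 / 24) + s ^ 3 / 3 := by
          rw [ec, es, hw']
          have := mul_le_mul_of_nonneg_left hcos (by linarith : 0 ≤ 2 * Real.pi)
          linarith
        have h4 : 2 * Real.pi * (1 - s ^ 2 / 2 + s ^ 4 / 24) ≤
            6.2832 * (1 - s ^ 2 / 2 + s ^ 4 / 24) :=
          mul_le_mul_of_nonneg_right (by linarith) hbr
        have h5 : (6.28318 - s) ^ 3 ≤ w ^ 3 :=
          pow_le_pow_left₀ (by linarith) (by linarith) 3
        have h7 : 6.2832 * (1 - s ^ 2 / 2 + s ^ 4 / 24) + s ^ 3 / 3 ≤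
            0.03 * (6.28318 - s) ^ 3 := by
          rcases le_or_gt s 1 with hs2 | hs2
          · have a1 : s ^ 3 ≤ s ^ 2 := by nlinarith [sq_nonneg s]
            have a2 : s ^ 4 ≤ s ^ 2 := by
              have : s ^ 4 ≤ s ^ 3 := by nlinarith [pow_pos hs0 3]
              linarith
            nlinarith [sq_nonneg (s - 0.58)]
          · have a1 : s ^ 3 ≤ 1.5708 * s ^ 2 := by nlinarith [sq_nonneg s]
            have a2 : s ^ 4 ≤ 1.5708 * (1.5708 * s ^ 2) := by
              have : s ^ 4 ≤ 1.5708 * s ^ 3 := by nlinarith [pow_pos hs0 3]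
              linarith
            nlinarith [mul_nonneg (sub_nonneg.2 hs2.le) (sub_nonneg.2 hs2.le)]
        linarith
  · -- w large
    have hsq : (w * Real.cos w - Real.sin w) ^ 2 ≤ (0.03 * w ^ 3) ^ 2 := by
      have h1 : (w * Real.cos w - Real.sin w) ^ 2 ≤ w ^ 2 + 1 := by
        have := Real.sin_sq_add_cos_sq w
        nlinarith [sq_nonneg (w * Real.sin w + Real.cos w)]
      have h2 : (36 : ℝ) ≤ w ^ 2 := by nlinarith
      have h3 : (0.03 * w ^ 3) ^ 2 = 0.0009 * (w ^ 2) ^ 3 := by ring
      rw [h3]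
      have h4 : 36 * (36 * w ^ 2) ≤ (w ^ 2) ^ 3 := by
        have h5 : 36 * w ^ 2 ≤ w ^ 2 * w ^ 2 := mul_le_mul_of_nonneg_right h2 (by positivity)
        nlinarith
      linarith
    have h0 : 0 ≤ 0.03 * w ^ 3 := by positivity
    exact le_trans (le_abs_self _) (abs_le_of_sq_le_sq hsq h0)

theorem gK2B : GK2B := by
  have hpos : ∀ w : ℝ, 0 < w → k2 w ≤ 0.015 := by
    intro w hw
    rw [Pool.Agent.Helper32.PT.gKER.2.2.2.2.1 w hw.ne', div_le_iff₀ (by positivity)]
    have := num_le hw
    linarith
  intro w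
  rcases lt_trichotomy w 0 with h | h | h
  · have e : k2 w = k2 (-w) := by
      rw [Pool.Agent.Helper32.PT.gKER.2.2.2.2.1 w h.ne,
        Pool.Agent.Helper32.PT.gKER.2.2.2.2.1 (-w) (neg_ne_zero.2 h.ne), Real.cos_neg,
        Real.sin_neg]
      have hw : w ≠ 0 := h.ne
      field_simp
      ring
    rw [e]
    exact hpos (-w) (neg_pos.2 h)
  · subst h
    have h1 := (Pool.Agent.Helper32.PT.gKER.1 0)
    have h2 := hasSum_single (f := fun j : ℕ => (-1 : ℝ) ^ (j + 1) * ((j : ℝ) + 1) /
      ((2 * j + 3).factorial : ℝ) * 0 ^ (2 * j)) 0 (by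
        intro j hj
        have : 2 * j ≠ 0 := by omega
        simp [zero_pow this])
    have h3 := h1.unique h2
    rw [h3]
    norm_num [Nat.factorial]
  · exact hpos w h

end Pool.Agent.Helper50.TH
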